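import Mathlib
import Pool.Agent.W787.KG.Defs

/-!
# Project KG (helper787), part L1 (helper505): nonnegative cosine transforms are integrable
-/

set_option autoImplicit false

namespace Pool.Agent.W505.KG

open MeasureTheory Set Metric Filter Topology Real
open Pool.Agent.W787.KG

lemma f_int (h2 : S_WI) {f : E → ℝ} {K : ℝ} (hf : Continuous f)
    (hb : ∀ ξ, |f ξ| ≤ K * Wg 6 1 1 ξ) : Integrable f := by
  refine Integrable.mono' (((h2 6 (by norm_num)).1).const_mul K) hf.aestronglyMeasurable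
    (Eventually.of_forall fun ξ => ?_)
  rw [Real.norm_eq_abs]
  exact hb ξ

lemma CT_cont {f : E → ℝ} (hf : Continuous f) (hfi : Integrable f) : Continuous (CT f) := by
  unfold CT
  refine continuous_of_dominated (bound := fun ξ => |f ξ|) ?_ ?_ hfi.abs ?_
  · intro x
    have : Continuous fun ξ : E => Real.cos (inner ℝ ξ x) * f ξ := by fun_prop
    exact this.aestronglyMeasurable
  · intro x
    refine Eventually.of_forall fun ξ => ?_
    rw [norm_mul, Real.norm_eq_abs, Real.norm_eq_abs]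
    exact mul_le_of_le_one_left (abs_nonneg _) (Real.abs_cos_le_one _)
  · refine Eventually.of_forall fun ξ => ?_
    fun_prop

lemma CT_bd {f : E → ℝ} (hfi : Integrable f) (x : E) : |CT f x| ≤ ∫ ξ, |f ξ| := by
  unfold CT
  rw [← Real.norm_eq_abs]
  refine norm_integral_le_of_norm_le hfi.abs (Eventually.of_forall fun ξ => ?_)
  rw [norm_mul, Real.norm_eq_abs, Real.norm_eq_abs]
  exact mul_le_of_le_one_left (abs_nonneg _) (Real.abs_cos_le_one _)

lemma gauss_int {δ : ℝ} (hδ : 0 < δ) : Integrable (fun x : E => Real.exp (-δ * ‖x‖ ^ 2)) := by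
  have h := (GaussianFourier.integrable_cexp_neg_mul_sq_norm_add (V := E) (b := (δ : ℂ))
    (by simpa using hδ) 0 0).re
  refine h.congr (Eventually.of_forall fun x => ?_)
  simp only [zero_mul, add_zero]
  have : (-(δ : ℂ) * ((‖x‖ : ℝ) : ℂ) ^ 2) = ((-δ * ‖x‖ ^ 2 : ℝ) : ℂ) := by push_cast; ring
  rw [this, ← Complex.ofReal_exp]
  rfl

lemma gauss_cos {δ : ℝ} (hδ : 0 < δ) (ξ : E) :
    ∫ x : E, Real.cos (inner ℝ ξ x) * Real.exp (-δ * ‖x‖ ^ 2) =
      (π / δ) ^ (3 / 2 : ℝ) * Real.exp (-‖ξ‖ ^ 2 / (4 * δ)) := by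
  have hb : 0 < ((δ : ℂ)).re := by simpa using hδ
  have h := GaussianFourier.integral_cexp_neg_mul_sq_norm_add (V := E) hb Complex.I ξ
  have hi := GaussianFourier.integrable_cexp_neg_mul_sq_norm_add (V := E) hb Complex.I ξ
  have h1 := congrArg RCLike.re h
  rw [← integral_re hi] at h1
  have e1 : ∀ x : E, RCLike.re (Complex.exp (-(δ : ℂ) * (‖x‖ : ℂ) ^ 2 +
      Complex.I * ((inner ℝ ξ x : ℝ) : ℂ))) =
        Real.cos (inner ℝ ξ x) * Real.exp (-δ * ‖x‖ ^ 2) := by
    intro x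
    have : (-(δ : ℂ) * (‖x‖ : ℂ) ^ 2 + Complex.I * ((inner ℝ ξ x : ℝ) : ℂ)) =
        ((-δ * ‖x‖ ^ 2 : ℝ) : ℂ) + ((inner ℝ ξ x : ℝ) : ℂ) * Complex.I := by
      push_cast; ring
    rw [this]
    change (Complex.exp _).re = _
    rw [Complex.exp_re]
    simp only [Complex.add_re, Complex.ofReal_re, Complex.mul_re, Complex.I_re, mul_zero,
      Complex.ofReal_im, Complex.I_im, mul_one, sub_self, add_zero, Complex.add_im,
      Complex.mul_im, zero_add]
    ring
  have e2 : ((π : ℂ) / (δ : ℂ)) ^ ((Module.finrank ℝ E : ℂ) / 2) *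
      Complex.exp (Complex.I ^ 2 * (‖ξ‖ : ℂ) ^ 2 / (4 * (δ : ℂ))) =
        (((π / δ) ^ (3 / 2 : ℝ) * Real.exp (-‖ξ‖ ^ 2 / (4 * δ)) : ℝ) : ℂ) := by
    rw [Complex.ofReal_mul, Complex.ofReal_cpow (by positivity), Complex.ofReal_exp]
    have hfr : (Module.finrank ℝ E : ℂ) = 3 := by
      have : Module.finrank ℝ E = 3 := by simp
      rw [this]
      norm_num
    rw [hfr, Complex.I_sq]
    push_cast
    ring_nf
  rw [e2] at h1
  rw [integral_congr_ae (Eventually.of_forall e1)] at h1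
  rw [h1]
  exact Complex.ofReal_re _

lemma fub_int {f : E → ℝ} (hf : Continuous f) (hfi : Integrable f) {δ : ℝ} (hδ : 0 < δ) :
    Integrable (Function.uncurry fun (x ξ : E) =>
      Real.cos (inner ℝ ξ x) * f ξ * Real.exp (-δ * ‖x‖ ^ 2)) (volume.prod volume) := by
  refine Integrable.mono' ((gauss_int hδ).mul_prod hfi.abs) ?_ (Eventually.of_forall ?_)
  · have : Continuous (Function.uncurry fun (x ξ : E) =>
      Real.cos (inner ℝ ξ x) * f ξ * Real.exp (-δ * ‖x‖ ^ 2)) := by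
      unfold Function.uncurry
      fun_prop
    exact this.aestronglyMeasurable
  · rintro ⟨x, ξ⟩
    simp only [Function.uncurry]
    rw [norm_mul, norm_mul, Real.norm_eq_abs, Real.norm_eq_abs, Real.norm_eq_abs, Real.abs_exp,
      mul_comm]
    refine mul_le_mul_of_nonneg_left ?_ (Real.exp_pos _).le
    exact mul_le_of_le_one_left (abs_nonneg _) (Real.abs_cos_le_one _)

lemma swap {f : E → ℝ} (hf : Continuous f) (hfi : Integrable f) {δ : ℝ} (hδ : 0 < δ) :
    ∫ x : E, CT f x * Real.exp (-δ * ‖x‖ ^ 2) =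
      ∫ ξ : E, f ξ * ((π / δ) ^ (3 / 2 : ℝ) * Real.exp (-‖ξ‖ ^ 2 / (4 * δ))) := by
  have h := integral_integral_swap (fub_int hf hfi hδ)
  have e1 : ∀ x : E, ∫ ξ : E, Real.cos (inner ℝ ξ x) * f ξ * Real.exp (-δ * ‖x‖ ^ 2) =
      CT f x * Real.exp (-δ * ‖x‖ ^ 2) := by
    intro x
    rw [integral_mul_const]
    rfl
  have e2 : ∀ ξ : E, ∫ x : E, Real.cos (inner ℝ ξ x) * f ξ * Real.exp (-δ * ‖x‖ ^ 2) =
      f ξ * ((π / δ) ^ (3 / 2 : ℝ) * Real.exp (-‖ξ‖ ^ 2 / (4 * δ))) := by
    intro ξ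
    rw [← gauss_cos hδ ξ, ← integral_const_mul]
    refine integral_congr_ae (Eventually.of_forall fun x => ?_)
    simp only
    ring
  rw [integral_congr_ae (Eventually.of_forall e1)] at h
  rw [h]
  exact integral_congr_ae (Eventually.of_forall e2)

lemma const_eq {δ : ℝ} (hδ : 0 < δ) :
    ∫ ξ : E, (π / δ) ^ (3 / 2 : ℝ) * Real.exp (-‖ξ‖ ^ 2 / (4 * δ)) = (4 * π ^ 2) ^ (3 / 2 : ℝ) := by
  rw [integral_const_mul]
  have e : ∀ ξ : E, Real.exp (-‖ξ‖ ^ 2 / (4 * δ)) = Real.exp (-(1 / (4 * δ)) * ‖ξ‖ ^ 2) := by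
    intro ξ
    congr 1
    ring
  rw [integral_congr_ae (Eventually.of_forall e),
    GaussianFourier.integral_rexp_neg_mul_sq_norm (V := E) (b := 1 / (4 * δ)) (by positivity)]
  have hfr : ((Module.finrank ℝ E : ℝ) / 2) = 3 / 2 := by
    have : Module.finrank ℝ E = 3 := by simp
    rw [this]
    norm_num
  rw [hfr, ← Real.mul_rpow (by positivity) (by positivity)]
  congr 1
  field_simp

lemma Wg_le_one (h4 : S_WE) (ξ : E) : Wg 6 1 1 ξ ≤ 1 := by
  have h := h4.2.2.2.1 6 0 ξ (by norm_num)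
  refine h.trans ?_
  unfold Wg
  simp

theorem l1 (h2 : S_WI) (h4 : S_WE) : S_L1 := by
  intro f K hf hb hpos
  have hfi := f_int h2 hf hb
  have hc := CT_cont hf hfi
  have hK : 0 ≤ K := by
    have h1 := (abs_nonneg _).trans (hb 0)
    have h5 := (h4.1 6 1 1 0 one_pos one_pos).1
    exact nonneg_of_mul_nonneg_left h1 h5
  have hbK : ∀ ξ, |f ξ| ≤ K := fun ξ =>
    (hb ξ).trans (mul_le_of_le_one_right hK (Wg_le_one h4 ξ))
  -- the bound of the regularised integrals
  have hreg : ∀ δ : ℝ, 0 < δ → ∫ x : E, CT f x * Real.exp (-δ * ‖x‖ ^ 2) ≤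
      K * (4 * π ^ 2) ^ (3 / 2 : ℝ) := by
    intro δ hδ
    rw [swap hf hfi hδ, ← const_eq hδ, ← integral_const_mul]
    have hg : Integrable (fun ξ : E => (π / δ) ^ (3 / 2 : ℝ) *
        Real.exp (-‖ξ‖ ^ 2 / (4 * δ))) := by
      refine ((gauss_int (δ := 1 / (4 * δ)) (by positivity)).const_mul
        ((π / δ) ^ (3 / 2 : ℝ))).congr (Eventually.of_forall fun ξ => ?_)
      simp only
      congr 2
      ring
    have hg0 : ∀ ξ : E, 0 ≤ (π / δ) ^ (3 / 2 : ℝ) * Real.exp (-‖ξ‖ ^ 2 / (4 * δ)) := by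
      intro ξ
      positivity
    refine integral_mono ?_ (hg.const_mul K) ?_
    · refine Integrable.mono' (hg.const_mul K) ?_ (Eventually.of_forall fun ξ => ?_)
      · have : Continuous (fun ξ : E => f ξ * ((π / δ) ^ (3 / 2 : ℝ) *
            Real.exp (-‖ξ‖ ^ 2 / (4 * δ)))) := by fun_prop
        exact this.aestronglyMeasurable
      · rw [norm_mul, Real.norm_eq_abs, Real.norm_eq_abs, abs_of_nonneg (hg0 ξ)]
        exact mul_le_mul_of_nonneg_right (hbK ξ) (hg0 ξ)
    · intro ξ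
      exact mul_le_mul_of_nonneg_right ((le_abs_self _).trans (hbK ξ)) (hg0 ξ)
  have hint : ∀ δ : ℝ, 0 < δ → Integrable (fun x : E => CT f x * Real.exp (-δ * ‖x‖ ^ 2)) := by
    intro δ hδ
    refine Integrable.mono' ((gauss_int hδ).const_mul (∫ ξ, |f ξ|)) ?_
      (Eventually.of_forall fun x => ?_)
    · have : Continuous (fun x : E => CT f x * Real.exp (-δ * ‖x‖ ^ 2)) := by fun_prop
      exact this.aestronglyMeasurable
    · rw [norm_mul, Real.norm_eq_abs, Real.norm_eq_abs, Real.abs_exp]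
      exact mul_le_mul_of_nonneg_right (CT_bd hfi x) (Real.exp_pos _).le
  have hcov : AECover (volume : Measure E) atTop (fun k : ℕ => ball (0 : E) ((k : ℝ) + 1)) :=
    aecover_ball (tendsto_atTop_add_const_right _ _ tendsto_natCast_atTop_atTop)
  refine hcov.integrable_of_integral_bounded_of_nonneg_ae
    (Real.exp 1 * (K * (4 * π ^ 2) ^ (3 / 2 : ℝ))) ?_ (Eventually.of_forall hpos)
    (Eventually.of_forall fun k => ?_)
  · intro k
    exact (hc.continuousOn.integrableOn_compact (isCompact_closedBall _ _)).mono_set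
      ball_subset_closedBall
  · have hR : (0 : ℝ) < (k : ℝ) + 1 := by positivity
    set δ : ℝ := 1 / ((k : ℝ) + 1) ^ 2 with hδ
    have hδ0 : 0 < δ := by positivity
    calc ∫ x in ball (0 : E) ((k : ℝ) + 1), CT f x
        ≤ ∫ x in ball (0 : E) ((k : ℝ) + 1), Real.exp 1 * (CT f x * Real.exp (-δ * ‖x‖ ^ 2)) := by
          refine setIntegral_mono_on ?_ ?_ measurableSet_ball fun x hx => ?_
          · exact (hc.continuousOn.integrableOn_compact (isCompact_closedBall _ _)).mono_set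
              ball_subset_closedBall
          · exact ((hint δ hδ0).const_mul _).integrableOn
          · have h1 : (1 : ℝ) ≤ Real.exp 1 * Real.exp (-δ * ‖x‖ ^ 2) := by
              rw [← Real.exp_add, Real.one_le_exp_iff]
              have h3 : ‖x‖ ≤ (k : ℝ) + 1 := by
                rw [mem_ball_zero_iff] at hx
                exact hx.le
              have h4 : δ * ‖x‖ ^ 2 ≤ 1 := by
                rw [hδ, one_div, inv_mul_le_iff₀ (by positivity), mul_one]
                exact pow_le_pow_left₀ (norm_nonneg _) h3 2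
              linarith
            calc CT f x = CT f x * 1 := (mul_one _).symm
              _ ≤ CT f x * (Real.exp 1 * Real.exp (-δ * ‖x‖ ^ 2)) :=
                mul_le_mul_of_nonneg_left h1 (hpos x)
              _ = _ := by ring
      _ ≤ ∫ x : E, Real.exp 1 * (CT f x * Real.exp (-δ * ‖x‖ ^ 2)) :=
          setIntegral_le_integral ((hint δ hδ0).const_mul _) (Eventually.of_forall fun x => by
            exact mul_nonneg (Real.exp_pos _).le (mul_nonneg (hpos x) (Real.exp_pos _).le))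
      _ ≤ Real.exp 1 * (K * (4 * π ^ 2) ^ (3 / 2 : ℝ)) := by
          rw [integral_const_mul]
          exact mul_le_mul_of_nonneg_left (hreg δ hδ0) (Real.exp_pos _).le

end Pool.Agent.W505.KG
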