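import Mathlib
import Pool.Agent.W787.KG.Defs
import Pool.Agent.W505.KG.L1

/-!
# Project KG (helper787), part NEW (helper505): the Newton potential
-/

set_option autoImplicit false

namespace Pool.Agent.W505.KG

open MeasureTheory Set Metric Filter Topology Real
open Pool.Agent.W787.KG

/-- Fubini for a nonnegative kernel. -/
lemma fub_ker {a S : E → ℝ} {k : E → ℝ → ℝ} (ha : Measurable a)
    (hk : Measurable (Function.uncurry k)) (hk0 : ∀ y τ, 0 < τ → 0 ≤ k y τ)
    (hS : ∀ y, a y ≠ 0 → IntegrableOn (k y) (Ioi 0) ∧ ∫ τ in Ioi (0 : ℝ), k y τ = S y)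
    (hi : Integrable (fun y => a y * S y)) :
    ∫ y, a y * S y = ∫ τ in Ioi (0 : ℝ), ∫ y, a y * k y τ := by
  have hG : Integrable (Function.uncurry fun (y : E) (τ : ℝ) => a y * k y τ)
      ((volume : Measure E).prod (volume.restrict (Ioi (0 : ℝ)))) := by
    have hm : Measurable (Function.uncurry fun (y : E) (τ : ℝ) => a y * k y τ) := by
      unfold Function.uncurry at hk ⊢
      exact (ha.comp measurable_fst).mul hk
    rw [integrable_prod_iff hm.aestronglyMeasurable]
    constructor
    · refine Eventually.of_forall fun y => ?_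
      change Integrable (fun τ => a y * k y τ) (volume.restrict (Ioi (0 : ℝ)))
      by_cases h : a y = 0
      · simp only [h, zero_mul]
        exact integrable_zero _ _ _
      · exact (hS y h).1.const_mul _
    · refine hi.norm.congr (Eventually.of_forall fun y => ?_)
      change ‖a y * S y‖ = ∫ τ in Ioi (0 : ℝ), ‖a y * k y τ‖
      by_cases h : a y = 0
      · simp only [h, zero_mul, norm_zero, integral_zero]
      · have e : ∫ τ in Ioi (0 : ℝ), ‖a y * k y τ‖ = ∫ τ in Ioi (0 : ℝ), |a y| * k y τ := by
          refine setIntegral_congr_fun measurableSet_Ioi fun τ hτ => ?_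
          rw [norm_mul, Real.norm_eq_abs, Real.norm_eq_abs, abs_of_nonneg (hk0 y τ hτ)]
        have h0 : 0 ≤ S y := by
          rw [← (hS y h).2]
          exact setIntegral_nonneg measurableSet_Ioi fun τ hτ => hk0 y τ hτ
        rw [e, integral_const_mul, (hS y h).2, norm_mul, Real.norm_eq_abs, Real.norm_eq_abs,
          abs_of_nonneg h0]
  rw [← integral_integral_swap hG]
  refine integral_congr_ae (Eventually.of_forall fun y => ?_)
  simp only
  by_cases h : a y = 0
  · simp only [h, zero_mul, integral_zero]
  · rw [integral_const_mul, (hS y h).2]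

/-- a bounded integrable function over the square of the distance -/
lemma sing_int {n : E → ℝ} {B : ℝ} (hn : Continuous n) (hni : Integrable n) (hB : ∀ y, |n y| ≤ B)
    (x : E) : Integrable (fun y : E => n y / ‖x - y‖ ^ 2) := by
  have hB0 : 0 ≤ B := (abs_nonneg _).trans (hB 0)
  have hg : Integrable (fun z : E => (Iio (1 : ℝ)).indicator (fun r : ℝ => 1 / r ^ 2) ‖z‖) := by
    rw [integrable_fun_norm_addHaar (volume : Measure E)
      (f := (Iio (1 : ℝ)).indicator (fun r : ℝ => 1 / r ^ 2))]
    have hfr : Module.finrank ℝ E = 3 := by simp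
    rw [hfr]
    have h1 : IntegrableOn (fun _ : ℝ => (1 : ℝ)) (Ioo (0 : ℝ) 1) := by
      rw [integrableOn_const_iff]
      right
      simp
    have h2 : IntegrableOn ((Iio (1 : ℝ)).indicator (fun _ : ℝ => (1 : ℝ))) (Ioi (0 : ℝ)) := by
      rw [IntegrableOn, integrable_indicator_iff measurableSet_Iio, IntegrableOn,
        Measure.restrict_restrict measurableSet_Iio]
      have : Iio (1 : ℝ) ∩ Ioi 0 = Ioo 0 1 := by
        ext z
        simp only [mem_inter_iff, mem_Iio, mem_Ioi, mem_Ioo]
        tauto
      rw [this]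
      exact h1
    refine h2.congr_fun (fun r hr => ?_) measurableSet_Ioi
    by_cases h : r ∈ Iio (1 : ℝ)
    · rw [indicator_of_mem h, indicator_of_mem h, smul_eq_mul]
      have hr' : r ≠ 0 := ne_of_gt hr
      field_simp
    · rw [indicator_of_notMem h, indicator_of_notMem h, smul_zero]
  have hg' := (hg.comp_sub_left x).const_mul B
  refine Integrable.mono' (hg'.add hni.abs) ?_ (Eventually.of_forall fun y => ?_)
  · have : Measurable (fun y : E => n y / ‖x - y‖ ^ 2) := by
      have := hn.measurable
      fun_prop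
    exact this.aestronglyMeasurable
  · rw [Real.norm_eq_abs, abs_div, abs_of_nonneg (by positivity : (0 : ℝ) ≤ ‖x - y‖ ^ 2)]
    simp only [Pi.add_apply]
    by_cases h : ‖x - y‖ < 1
    · rw [indicator_of_mem (mem_Iio.2 h)]
      have h3 : |n y| / ‖x - y‖ ^ 2 ≤ B * (1 / ‖x - y‖ ^ 2) := by
        rw [mul_one_div]
        exact div_le_div_of_nonneg_right (hB y) (by positivity)
      linarith [abs_nonneg (n y)]
    · rw [indicator_of_notMem (by rwa [mem_Iio]), mul_zero, zero_add]
      have h4 : (1 : ℝ) ≤ ‖x - y‖ ^ 2 := one_le_pow₀ (not_lt.1 h)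
      exact div_le_self (abs_nonneg _) h4

lemma vol_eq : 3 * (volume (ball (0 : E) 1)).toReal = 4 * π := by
  rw [EuclideanSpace.volume_ball_fin_three, ENNReal.ofReal_one, one_pow, one_mul,
    ENNReal.toReal_ofReal (by positivity)]
  ring

theorem newt (h1 : S_GK) (h2 : S_WI) (h3 : S_RK) : S_NEW := by
  intro f K hf hb hn x
  have hfi := f_int h2 hf hb
  have hc := CT_cont hf hfi
  have hB := CT_bd hfi
  have hK1 : Integrable (fun η : E => |f η| / ‖η‖) := by
    refine Integrable.mono' (((h2 6 (by norm_num)).2).const_mul K) ?_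
      (Eventually.of_forall fun η => ?_)
    · have : Measurable (fun η : E => |f η| / ‖η‖) := by
        have := hf.measurable
        fun_prop
      exact this.aestronglyMeasurable
    · rw [Real.norm_eq_abs, abs_div, abs_abs, abs_norm]
      calc |f η| / ‖η‖ ≤ (K * Wg 6 1 1 η) / ‖η‖ :=
            div_le_div_of_nonneg_right (hb η) (norm_nonneg _)
        _ = K * (1 / ‖η‖ * Wg 6 1 1 η) := by ring
  have hs := sing_int hc hn hB x
  -- integrability of the vector functions
  have hF : Integrable (fun y : E => (CT f y / ‖x - y‖ ^ 3) • (x - y)) := by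
    refine Integrable.mono' hs.norm ?_ (Eventually.of_forall fun y => ?_)
    · have : Measurable (fun y : E => (CT f y / ‖x - y‖ ^ 3) • (x - y)) := by
        have := hc.measurable
        fun_prop
      exact this.aestronglyMeasurable
    · rw [norm_smul, norm_div, norm_div, norm_pow, norm_pow, norm_norm]
      rcases eq_or_ne (‖x - y‖) 0 with h | h
      · rw [h]
        simp
      · apply le_of_eq
        field_simp
  have hV : Integrable (fun η : E => (-(Real.sin (inner ℝ η x) * f η / ‖η‖ ^ 2)) • η) := by
    refine Integrable.mono' hK1 ?_ (Eventually.of_forall fun η => ?_)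
    · have : Measurable (fun η : E => (-(Real.sin (inner ℝ η x) * f η / ‖η‖ ^ 2)) • η) := by
        have := hf.measurable
        fun_prop
      exact this.aestronglyMeasurable
    · rw [norm_smul, norm_neg, norm_div, norm_mul, norm_pow, norm_norm, Real.norm_eq_abs,
        Real.norm_eq_abs]
      rcases eq_or_ne (‖η‖) 0 with h | h
      · rw [h]
        simp
      · have h5 : |Real.sin (inner ℝ η x)| * |f η| ≤ |f η| :=
          mul_le_of_le_one_left (abs_nonneg _) (Real.abs_sin_le_one _)
        calc |Real.sin (inner ℝ η x)| * |f η| / ‖η‖ ^ 2 * ‖η‖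
            = |Real.sin (inner ℝ η x)| * |f η| / ‖η‖ := by field_simp
          _ ≤ |f η| / ‖η‖ := div_le_div_of_nonneg_right h5 (norm_nonneg _)
  apply ext_inner_left ℝ
  intro v
  unfold VV
  rw [inner_smul_right, ← integral_inner hF, ← integral_inner hV, vol_eq, ← integral_const_mul]
  -- the left hand side
  have eL : ∫ y : E, -(1 / (4 * π)) * inner ℝ v ((CT f y / ‖x - y‖ ^ 3) • (x - y)) =
      -∫ y : E, (CT f y * inner ℝ (x - y) v) * (1 / (4 * π * ‖x - y‖ ^ 3)) := by
    rw [← integral_neg]
    refine integral_congr_ae (Eventually.of_forall fun y => ?_)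
    simp only
    rw [inner_smul_right, real_inner_comm (x - y) v]
    rcases eq_or_ne (‖x - y‖) 0 with h | h
    · rw [h]
      simp
    · field_simp
  have eR : ∫ η : E, inner ℝ v ((-(Real.sin (inner ℝ η x) * f η / ‖η‖ ^ 2)) • η) =
      -∫ η : E, (inner ℝ η v * Real.sin (inner ℝ η x) * f η) * (1 / ‖η‖ ^ 2) := by
    rw [← integral_neg]
    refine integral_congr_ae (Eventually.of_forall fun η => ?_)
    simp only
    rw [inner_smul_right, real_inner_comm η v]
    ring
  rw [eL, eR]
  congr 1
  -- Fubini on the left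
  have hGKm : Measurable (Function.uncurry fun (y : E) (τ : ℝ) =>
      1 / (2 * τ) * GK τ (x - y)) := by
    unfold Function.uncurry GK
    fun_prop
  have hGK0 : ∀ (y : E) (τ : ℝ), 0 < τ → 0 ≤ 1 / (2 * τ) * GK τ (x - y) := by
    intro y τ hτ
    unfold GK
    positivity
  have F1 := fub_ker (a := fun y => CT f y * inner ℝ (x - y) v)
    (S := fun y => 1 / (4 * π * ‖x - y‖ ^ 3))
    (k := fun (y : E) (τ : ℝ) => 1 / (2 * τ) * GK τ (x - y))
    (by
      have := hc.measurable
      fun_prop) hGKm hGK0
    (by
      intro y hy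
      have hne : x - y ≠ 0 := by
        intro h
        apply hy
        simp only [h, inner_zero_left, mul_zero]
      exact h3 (x - y) hne)
    (by
      refine Integrable.mono' (hs.norm.const_mul (‖v‖ * (1 / (4 * π)))) ?_
        (Eventually.of_forall fun y => ?_)
      · have : Measurable (fun y : E => (CT f y * inner ℝ (x - y) v) *
            (1 / (4 * π * ‖x - y‖ ^ 3))) := by
          have := hc.measurable
          fun_prop
        exact this.aestronglyMeasurable
      · have hi : |inner ℝ (x - y) v| ≤ ‖x - y‖ * ‖v‖ := abs_real_inner_le_norm _ _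
        rw [norm_mul, norm_mul, norm_div, norm_div, norm_mul, norm_pow, norm_pow, norm_norm,
          Real.norm_eq_abs, Real.norm_eq_abs, Real.norm_eq_abs, abs_one, Real.norm_eq_abs,
          abs_of_nonneg (by positivity : (0 : ℝ) ≤ 4 * π)]
        rcases eq_or_ne (‖x - y‖) 0 with h | h
        · rw [h]
          simp
        · have hpos : 0 < ‖x - y‖ := lt_of_le_of_ne (norm_nonneg _) (Ne.symm h)
          calc |CT f y| * |inner ℝ (x - y) v| * (1 / (4 * π * ‖x - y‖ ^ 3))
              ≤ |CT f y| * (‖x - y‖ * ‖v‖) * (1 / (4 * π * ‖x - y‖ ^ 3)) := by gcongr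
            _ = ‖v‖ * (1 / (4 * π)) * (|CT f y| / ‖x - y‖ ^ 2) := by field_simp)
  rw [F1]
  -- Fubini on the right
  have F2 := fub_ker (a := fun η => inner ℝ η v * Real.sin (inner ℝ η x) * f η)
    (S := fun η => 1 / ‖η‖ ^ 2)
    (k := fun (η : E) (τ : ℝ) => Real.exp (-τ * ‖η‖ ^ 2))
    (by
      have := hf.measurable
      fun_prop)
    (by
      unfold Function.uncurry
      fun_prop)
    (fun η τ _ => (Real.exp_pos _).le)
    (by
      intro η hη
      have hne : η ≠ 0 := by
        intro h
        apply hη
        simp only [h, inner_zero_left, zero_mul]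
      have hpos : 0 < ‖η‖ ^ 2 := by
        have := norm_pos_iff.2 hne
        positivity
      have e : ∀ τ : ℝ, Real.exp (-τ * ‖η‖ ^ 2) = Real.exp (-(‖η‖ ^ 2) * τ) := by
        intro τ
        congr 1
        ring
      constructor
      · refine (exp_neg_integrableOn_Ioi 0 hpos).congr_fun (fun τ _ => (e τ).symm)
          measurableSet_Ioi
      · rw [setIntegral_congr_fun measurableSet_Ioi (fun τ _ => e τ),
          integral_exp_mul_Ioi (by linarith) 0, mul_zero, Real.exp_zero]
        rw [neg_div_neg_eq])
    (by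
      refine Integrable.mono' (hK1.const_mul ‖v‖) ?_ (Eventually.of_forall fun η => ?_)
      · have : Measurable (fun η : E => (inner ℝ η v * Real.sin (inner ℝ η x) * f η) *
            (1 / ‖η‖ ^ 2)) := by
          have := hf.measurable
          fun_prop
        exact this.aestronglyMeasurable
      · have hi : |inner ℝ η v| ≤ ‖η‖ * ‖v‖ := abs_real_inner_le_norm _ _
        have hsn : |Real.sin (inner ℝ η x)| ≤ 1 := Real.abs_sin_le_one _
        rw [norm_mul, norm_mul, norm_mul, norm_div, norm_pow, norm_norm, Real.norm_eq_abs,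
          Real.norm_eq_abs, Real.norm_eq_abs, norm_one]
        rcases eq_or_ne (‖η‖) 0 with h | h
        · rw [h]
          simp
        · have hpos : 0 < ‖η‖ := lt_of_le_of_ne (norm_nonneg _) (Ne.symm h)
          calc |inner ℝ η v| * |Real.sin (inner ℝ η x)| * |f η| * (1 / ‖η‖ ^ 2)
              ≤ (‖η‖ * ‖v‖) * 1 * |f η| * (1 / ‖η‖ ^ 2) := by gcongr
            _ = ‖v‖ * (|f η| / ‖η‖) := by field_simp)
  rw [F2]
  refine setIntegral_congr_fun measurableSet_Ioi fun τ hτ => ?_
  have e := h1 f K hf hb τ x v hτ
  have e1 : ∫ y : E, CT f y * inner ℝ (x - y) v * (1 / (2 * τ) * GK τ (x - y)) =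
      ∫ y : E, CT f y * (inner ℝ (x - y) v / (2 * τ)) * GK τ (x - y) := by
    refine integral_congr_ae (Eventually.of_forall fun y => ?_)
    simp only
    ring
  rw [e1, e]
  refine integral_congr_ae (Eventually.of_forall fun η => ?_)
  simp only
  ring

end Pool.Agent.W505.KG
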